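import Pool.Agent.Q274.BD.Wt
import Pool.Agent.Q208.BD.EV
import Pool.Agent.Q208.BD.SQ

/-!
# Project BD: assembly
-/

set_option autoImplicit false
set_option linter.unusedVariables false

namespace Pool.Agent.Q274.BD

open NumberField IsDedekindDomain
open Pool.Agent.Q274.BKC (GK OB Dec Ine val Unr Res Cl IsSel AboveC H1f corank t_GEN)

/-- the other choice of the prime above `2` -/
theorem isOdd_neg {K : Type} [Field K] [NumberField K] {q D : ℕ} {ε a b : ℤ} {s : K} {t : ℤ_[2]}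
    {χ : GK K →* ℤ_[2]ˣ} (h : IsOdd q D ε a b s t χ) : IsOdd q D ε b a (-s) t χ := by
  intro v σ n A B β h1 h2 h3 h4 h5
  have h6 : (β : K) = A + ((-B : ℤ) : K) * s := by
    rw [h5]
    push_cast
    ring
  have h7 := h v σ n A (-B) β h1 h2 h3 h4 h6
  rw [h7]
  have h8 : (A ^ 2 + q * (-B) ^ 2) = A ^ 2 + q * B ^ 2 := by ring
  rw [h8]
  have h9 : ((A : ℚ_[2]) + ((-B : ℤ) : ℚ_[2]) * (t : ℚ_[2])) = (A : ℚ_[2]) - B * (t : ℚ_[2]) := by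
    push_cast
    ring
  have h10 : ((A : ℚ_[2]) - ((-B : ℤ) : ℚ_[2]) * (t : ℚ_[2])) = (A : ℚ_[2]) + B * (t : ℚ_[2]) := by
    push_cast
    ring
  rw [h9, h10]
  ring

/-- odd degrees, strict at `v'` -/
theorem odd1 {K : Type} [Field K] [NumberField K] {q D : ℕ} {ε a b : ℤ} {s : K} {t : ℤ_[2]}
    {χ : GK K →* ℤ_[2]ˣ} (hq : q.Prime) (hq8 : q % 8 = 7) (hD : Cl q D) (hs : s ^ 2 = -(q : K))
    (hK : Module.finrank ℚ K = 2) (ht : t ^ 2 = -(q : ℤ_[2])) (ht4 : (4 : ℤ_[2]) ∣ t - 3)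
    (hc : Continuous χ) (hab : Odd (a + b)) (hε : ε = if Even b then 1 else -1)
    (h : IsOdd q D ε a b s t χ) :
    Module.rank ℚ_[2] (H1f s χ) ≤ ((2 * corank q D : ℕ) : Cardinal) := by
  obtain ⟨h1, h2⟩ := t_WTO K q D ε a b s t χ hq hq8 hD hs hK ht ht4 hc hab hε h
  exact t_GEN K q D s χ hq hq8 hD hs hK hc h1 h2

/-- odd degrees, strict at `v` -/
theorem odd2 {K : Type} [Field K] [NumberField K] {q D : ℕ} {ε a b : ℤ} {s : K} {t : ℤ_[2]}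
    {χ : GK K →* ℤ_[2]ˣ} (hq : q.Prime) (hq8 : q % 8 = 7) (hD : Cl q D) (hs : s ^ 2 = -(q : K))
    (hK : Module.finrank ℚ K = 2) (ht : t ^ 2 = -(q : ℤ_[2])) (ht4 : (4 : ℤ_[2]) ∣ t - 3)
    (hc : Continuous χ) (hab : Odd (a + b)) (hε : ε = if Even a then 1 else -1)
    (h : IsOdd q D ε a b s t χ) :
    Module.rank ℚ_[2] (H1f (-s) χ) ≤ ((2 * corank q D : ℕ) : Cardinal) :=
  odd1 hq hq8 hD (by rw [neg_sq, hs]) hK ht ht4 hc (by rwa [add_comm]) hε (isOdd_neg h)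

/-- even degrees -/
theorem ev (K : Type) [Field K] [NumberField K] (s : K) (χ : GK K →* ℤ_[2]ˣ)
    (hs : s ^ 2 = -((7 : ℕ) : K)) (hK : Module.finrank ℚ K = 2) (hc : Continuous χ)
    (hu : ∀ Q : Ideal (OB K), Q.IsMaximal → (2 : OB K) ∉ Q → ∀ σ ∈ Ine Q, χ σ = 1)
    (c : GK K → ℚ_[2]) (h : IsSel s χ c) : ∃ y : ℚ_[2], ∀ σ, c σ = (val χ σ - 1) * y :=
  Pool.Agent.Q208.BD.t_EV Pool.Agent.Q208.BD.t_SQ K s χ hs hK hc hu c h

end Pool.Agent.Q274.BD
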