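import Pool.Agent.Q274.BKC.Stm2

/-!
# Project BD (MP_76188c_nt): Selmer groups of all Tate twists, statements

`q = 7 mod 8` is a prime, `K = ℚ(√-q)`, `s ∈ K` with `s ^ 2 = -q`, `2 = v v'`; at `v` the element `s`
is `3` modulo `4`, at `v'` it is `1` modulo `4`.
-/

set_option autoImplicit false
set_option linter.unusedVariables false

namespace Pool.Agent.Q274.BD

open NumberField IsDedekindDomain
open scoped Classical
open Pool.Agent.Q274.BKC (GK OB Dec Ine val Unr Res Cl AboveC IsSel TrivOn)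

/-- `χ` is the 2-adic character of `ψ ^ a * conj ψ ^ b` twisted by `ε D` (`a + b` odd); `t` is the
image of `s` at `v` -/
def IsOdd {K : Type} [Field K] [NumberField K] (q D : ℕ) (ε a b : ℤ) (s : K) (t : ℤ_[2])
    (χ : GK K →* ℤ_[2]ˣ) : Prop :=
  ∀ (v : HeightOneSpectrum (𝓞 K)) (σ : GK K) (n : ℕ) (A B : ℤ) (β : 𝓞 K),
    ((2 * q * D : ℕ) : 𝓞 K) ∉ v.asIdeal → Pool.Agent.W401.Cheb.IsFrob v σ → Odd n →
    v.asIdeal ^ n = Ideal.span {β} → (β : K) = A + B * s →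
    val χ σ ^ n =
      ((jacobiSym A q * jacobiSym (ε * D) (A ^ 2 + q * B ^ 2).natAbs : ℤ) : ℚ_[2]) *
        ((A : ℚ_[2]) + B * (t : ℚ_[2])) ^ a * ((A : ℚ_[2]) - B * (t : ℚ_[2])) ^ b

/-- `χ` is the 2-adic character of `ψ ^ a * conj ψ ^ b` twisted by `ε` (`a + b` even) -/
def IsEven {K : Type} [Field K] [NumberField K] (q : ℕ) (ε a b : ℤ) (s : K) (t : ℤ_[2])
    (χ : GK K →* ℤ_[2]ˣ) : Prop :=
  ∀ (v : HeightOneSpectrum (𝓞 K)) (σ : GK K) (n : ℕ) (A B : ℤ) (β : 𝓞 K),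
    (2 : 𝓞 K) ∉ v.asIdeal → Pool.Agent.W401.Cheb.IsFrob v σ → Odd n →
    v.asIdeal ^ n = Ideal.span {β} → (β : K) = A + B * s →
    val χ σ ^ n = ((jacobiSym ε (A ^ 2 + q * B ^ 2).natAbs : ℤ) : ℚ_[2]) *
        ((A : ℚ_[2]) + B * (t : ℚ_[2])) ^ a * ((A : ℚ_[2]) - B * (t : ℚ_[2])) ^ b

/-- BD-1 (WTO). The generalization of `Pool.Agent.Q149.BKC.t_WTJ` to all `a`, `b` with `a + b` odd. -/
def S_WTO : Prop := ∀ (K : Type) [Field K] [NumberField K] (q D : ℕ) (ε a b : ℤ) (s : K)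
  (t : ℤ_[2]) (χ : GK K →* ℤ_[2]ˣ), q.Prime → q % 8 = 7 → Cl q D → s ^ 2 = -(q : K) →
  Module.finrank ℚ K = 2 → t ^ 2 = -(q : ℤ_[2]) → (4 : ℤ_[2]) ∣ t - 3 → Continuous χ →
  Odd (a + b) → ε = (if Even b then 1 else -1) → IsOdd q D ε a b s t χ → Unr q D χ ∧ Res s D χ

/-- BD-2 (WTE). The characters of even type are unramified outside `2`. -/
def S_WTE : Prop := ∀ (K : Type) [Field K] [NumberField K] (q : ℕ) (ε a b : ℤ) (s : K)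
  (t : ℤ_[2]) (χ : GK K →* ℤ_[2]ˣ), q.Prime → q % 8 = 7 → s ^ 2 = -(q : K) →
  Module.finrank ℚ K = 2 → t ^ 2 = -(q : ℤ_[2]) → (4 : ℤ_[2]) ∣ t - 3 → Continuous χ →
  IsEven q ε a b s t χ →
  ∀ Q : Ideal (OB K), Q.IsMaximal → (2 : OB K) ∉ Q → ∀ σ ∈ Ine Q, χ σ = 1

/-- BD-3 (SQ). An element of `ℚ(√-7)` with even valuations outside `2` which is a square at `v'` is a
square. -/
def S_SQ : Prop := ∀ (K : Type) [Field K] [NumberField K] (s x : K), s ^ 2 = -7 →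
  Module.finrank ℚ K = 2 → x ≠ 0 →
  (∀ v : HeightOneSpectrum (𝓞 K), (2 : 𝓞 K) ∉ v.asIdeal →
    ∃ a : K, a ≠ 0 ∧ v.valuation K (x * a ^ 2) = 1) →
  (∀ (A B : ℚ) (t : ℚ_[2]), x = A + B * s → t ^ 2 = -7 → ‖t - 1‖ ≤ 1 / 4 →
    IsSquare ((A : ℚ_[2]) + B * t)) → IsSquare x

/-- BD-4 (EV). The Selmer group of a character unramified outside `2` for `q = 7`. -/
def S_EV : Prop := S_SQ → ∀ (K : Type) [Field K] [NumberField K] (s : K) (χ : GK K →* ℤ_[2]ˣ),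
  s ^ 2 = -((7 : ℕ) : K) → Module.finrank ℚ K = 2 → Continuous χ →
  (∀ Q : Ideal (OB K), Q.IsMaximal → (2 : OB K) ∉ Q → ∀ σ ∈ Ine Q, χ σ = 1) →
  ∀ c : GK K → ℚ_[2], IsSel s χ c → ∃ y : ℚ_[2], ∀ σ, c σ = (val χ σ - 1) * y

end Pool.Agent.Q274.BD
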