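import Pool.Agent.Q274.HD.Stm2
import Pool.Agent.Q24.HD.FRO

/-!
# The even Tate twists of the self-dual ordinary deformations of `E[4]`
-/

set_option autoImplicit false
set_option linter.unusedVariables false

namespace Pool.Agent.Q274.BD.Tate

open NumberField
open Pool.Agent.Q274.HD
open Pool.Agent.Q274.BKC (GK OB Dec Ine)
open scoped Classical Matrix

/-- the determinant as a character with values in the units -/
noncomputable def kap (ρ : Rep) : GQ →* ℤ_[2]ˣ :=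
  MonoidHom.toHomUnits ((Matrix.detMonoidHom (R := ℤ_[2]) (n := Fin 2)).comp ρ)

theorem kap_val (ρ : Rep) (σ : GQ) : ((kap ρ σ : ℤ_[2]ˣ) : ℤ_[2]) = (ρ σ).det := rfl

/-- the twist of `ρ` by the power `j` of its determinant -/
noncomputable def tate (ρ : Rep) (j : ℤ) : Rep where
  toFun σ := ((kap ρ σ ^ j : ℤ_[2]ˣ) : ℤ_[2]) • ρ σ
  map_one' := by simp
  map_mul' σ τ := by
    rw [map_mul, map_mul, mul_zpow, Units.val_mul, smul_mul_smul_comm]

/-- at the odd primes `l` which divide `dd b` exactly once the decomposition groups act on a quotient of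
rank one by an unramified character of order at most `2` -/
def MultS (b : Fin 3 → ℤ) (ρ : Rep) : Prop :=
  ∀ l : ℕ, l.Prime → l ≠ 2 → (l : ℤ) ∣ dd b → ¬ (l : ℤ) ^ 2 ∣ dd b →
  ∀ Q : Ideal ZB, Q.IsMaximal → (l : ZB) ∈ Q → ∃ f : T2,
    ∀ σ ∈ Dec Q, ∃ ψ : ℤ_[2], Quo ρ f σ ψ ∧ ψ ^ 2 = 1 ∧ (σ ∈ Ine Q → ψ = 1)

/-! ### lemmas -/

theorem zmod2_unit : ∀ u : (ZMod 2)ˣ, (u : ZMod 2) = 1 := by decide

theorem dvd_unit_sub_one (u : ℤ_[2]ˣ) : (2 : ℤ_[2]) ∣ (u : ℤ_[2]) - 1 := by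
  have h1 : PadicInt.toZMod ((u : ℤ_[2]) - 1) = 0 := by
    rw [map_sub, map_one, sub_eq_zero]
    exact zmod2_unit (Units.map (PadicInt.toZMod (p := 2)).toMonoidHom u)
  have h2 : ((u : ℤ_[2]) - 1) ∈ RingHom.ker (PadicInt.toZMod (p := 2)) := h1
  rw [PadicInt.ker_toZMod, PadicInt.maximalIdeal_eq_span_p, Ideal.mem_span_singleton] at h2
  exact_mod_cast h2

theorem sq_unit (u : ℤ_[2]ˣ) : (4 : ℤ_[2]) ∣ ((u ^ 2 : ℤ_[2]ˣ) : ℤ_[2]) - 1 := by
  obtain ⟨k, hk⟩ := dvd_unit_sub_one u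
  rw [Units.val_pow_eq_pow_val]
  refine ⟨k * (k + 1), ?_⟩
  have h1 : (u : ℤ_[2]) = 1 + 2 * k := by linear_combination hk
  rw [h1]
  ring

/-- the even powers are `1` modulo `4` -/
theorem even_zpow (u : ℤ_[2]ˣ) {j : ℤ} (hj : Even j) :
    (4 : ℤ_[2]) ∣ ((u ^ j : ℤ_[2]ˣ) : ℤ_[2]) - 1 := by
  obtain ⟨k, rfl⟩ := hj
  have h1 : u ^ (k + k) = (u ^ k) ^ 2 := by rw [zpow_add, sq]
  rw [h1]
  exact sq_unit _

theorem dvd_mul_iff {u x : ℤ_[2]} (hu : (4 : ℤ_[2]) ∣ u - 1) : (4 : ℤ_[2]) ∣ u * x - 1 ↔ (4 : ℤ_[2]) ∣ x - 1 := by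
  have h1 : u * x - 1 = (u - 1) * x + (x - 1) := by ring
  rw [h1]
  exact (dvd_add_right (hu.mul_right x))

theorem root_eq {Q : Ideal ZB} (hQ : Q.IsMaximal) (h2 : (2 : ZB) ∉ Q) {n : ℕ} {ξ : ZB}
    (hξ : ξ ^ 2 ^ n = 1) (h : ξ - 1 ∈ Q) : ξ = 1 := by
  induction n with
  | zero => simpa using hξ
  | succ n ih =>
    apply ih
    have h1 : (ξ ^ 2 ^ n) ^ 2 = 1 ^ 2 := by rw [← pow_mul, ← pow_succ, one_pow]; exact hξ
    rcases sq_eq_sq_iff_eq_or_eq_neg.1 h1 with h3 | h3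
    · exact h3
    · exfalso
      have h4 : ξ ^ 2 ^ n - 1 ^ 2 ^ n ∈ Q := by
        obtain ⟨z, hz⟩ := sub_dvd_pow_sub_pow ξ 1 (2 ^ n)
        rw [hz]
        exact Q.mul_mem_right _ h
      rw [h3, one_pow] at h4
      apply h2
      have h5 : (2 : ZB) = -(-1 - 1) := by ring
      rw [h5]
      exact neg_mem h4

/-- a primitive `2 ^ n`-th root of unity among the algebraic integers -/
theorem exists_root (n : ℕ) : ∃ ζ : ZB, IsPrimitiveRoot ζ (2 ^ n) := by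
  have : NeZero ((2 ^ n : ℕ) : QB) := ⟨by push_cast; exact pow_ne_zero _ two_ne_zero⟩
  obtain ⟨ζ, hζ⟩ := HasEnoughRootsOfUnity.exists_primitiveRoot QB (2 ^ n)
  have h1 : IsIntegral ℤ ζ := hζ.isIntegral (by positivity)
  refine ⟨⟨ζ, h1⟩, ?_⟩
  have h2 : Function.Injective (algebraMap ZB QB) := RingOfIntegers.coe_injective
  exact (IsPrimitiveRoot.map_iff_of_injective (f := algebraMap ZB QB) h2).1 hζ

/-- the determinant of a Frobenius element -/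
theorem det_frob {ρ : Rep} (hc : Cyc ρ) {l : ℕ} {Q : Ideal ZB} (hQ : Q.IsMaximal)
    (h2 : (2 : ZB) ∉ Q) {φ : GQ} (hφ : ∀ x : ZB, φ • x - x ^ l ∈ Q) :
    (ρ φ).det = (l : ℤ_[2]) := by
  rw [← sub_eq_zero]
  by_contra hne
  -- the norm gives a power of two which does not divide
  have key : ∀ n : ℕ, ((2 : ℤ_[2]) ^ n) ∣ (ρ φ).det - l := by
    intro n
    obtain ⟨ζ, hζ⟩ := exists_root n
    obtain ⟨m, hm⟩ : ∃ m : ℕ, ((2 : ℤ_[2]) ^ n) ∣ (ρ φ).det - m := by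
      have h3 := PadicInt.appr_spec (p := 2) n (ρ φ).det
      rw [Ideal.mem_span_singleton] at h3
      exact ⟨_, by exact_mod_cast h3⟩
    have hζ1 : ((ζ : ZB) : QB) ^ 2 ^ n = 1 := by
      have h4 := congrArg (fun z : ZB => (z : QB)) hζ.pow_eq_one
      simpa using h4
    have h5 := hc φ n m (ζ : QB) hζ1 hm
    have h6 : φ • ζ = ζ ^ m := by
      apply RingOfIntegers.ext
      change φ (ζ : QB) = algebraMap ZB QB (ζ ^ m)
      rw [map_pow]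
      exact h5
    have h7 := hφ ζ
    rw [h6] at h7
    -- ζ ^ m = ζ ^ l
    have hinv : ζ ^ l * (ζ ^ ((2 ^ n - 1) * l)) = 1 := by
      rw [← pow_add]
      have h8 : l + (2 ^ n - 1) * l = 2 ^ n * l := by
        have : 1 ≤ 2 ^ n := Nat.one_le_two_pow
        obtain ⟨k, hk⟩ : ∃ k, 2 ^ n = k + 1 := ⟨2 ^ n - 1, by omega⟩
        rw [hk]
        simp
        ring
      rw [h8, pow_mul, hζ.pow_eq_one, one_pow]
    have h9 : (ζ ^ m * ζ ^ ((2 ^ n - 1) * l)) - 1 ∈ Q := by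
      have h10 : (ζ ^ m * ζ ^ ((2 ^ n - 1) * l)) - 1 =
          (ζ ^ m - ζ ^ l) * ζ ^ ((2 ^ n - 1) * l) := by
        rw [sub_mul, hinv]
      rw [h10]
      exact Q.mul_mem_right _ h7
    have h11 := root_eq hQ h2 (n := n) (by
      rw [mul_pow, ← pow_mul, ← pow_mul, mul_comm m, mul_comm ((2 ^ n - 1) * l), pow_mul, pow_mul,
        hζ.pow_eq_one, one_pow, one_pow, one_mul]) h9
    rw [← pow_add] at h11
    obtain ⟨k, hk⟩ := hζ.dvd_of_pow_eq_one _ h11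
    have h1n : 1 ≤ 2 ^ n := Nat.one_le_two_pow
    have h16 : ((m : ℤ_[2]) - l) = 2 ^ n * ((k : ℤ_[2]) - l) := by
      have h17 : ((m + (2 ^ n - 1) * l : ℕ) : ℤ_[2]) = ((2 ^ n * k : ℕ) : ℤ_[2]) := by rw [hk]
      push_cast [Nat.cast_sub h1n] at h17
      linear_combination h17
    have h15 : (ρ φ).det - l = ((ρ φ).det - m) + ((m : ℤ_[2]) - l) := by ring
    rw [h15]
    exact dvd_add hm ⟨_, h16⟩
  have h20 : ∀ n : ℕ, ‖(ρ φ).det - l‖ ≤ (2 : ℝ) ^ (-(n : ℤ)) := by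
    intro n
    have := (PadicInt.norm_le_pow_iff_mem_span_pow ((ρ φ).det - (l : ℤ_[2])) n).2 (by
      rw [Ideal.mem_span_singleton]
      exact_mod_cast key n)
    exact_mod_cast this
  have h21 : 0 < ‖(ρ φ).det - (l : ℤ_[2])‖ := norm_pos_iff.2 hne
  obtain ⟨n, hn⟩ := exists_pow_lt_of_lt_one h21 (by norm_num : (1 / 2 : ℝ) < 1)
  have h22 := h20 n
  rw [zpow_neg, zpow_natCast, ← inv_pow] at h22
  norm_num at hn h22
  linarith

theorem kap_cont {ρ : Rep} (h : Continuous ρ) : Continuous (kap ρ) := by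
  have h1 : Continuous fun σ => (ρ σ).det := Continuous.matrix_det h
  rw [Units.continuous_iff]
  refine ⟨h1, ?_⟩
  have h2 : (fun σ => (((kap ρ σ)⁻¹ : ℤ_[2]ˣ) : ℤ_[2])) = fun σ => (ρ σ⁻¹).det := by
    funext σ
    rw [← map_inv, kap_val]
  change Continuous fun σ => (((kap ρ σ)⁻¹ : ℤ_[2]ˣ) : ℤ_[2])
  rw [h2]
  exact h1.comp continuous_inv

theorem tate_cont {ρ : Rep} (h : Continuous ρ) (j : ℤ) : Continuous (tate ρ j) := by
  have h1 : Continuous fun σ => ((kap ρ σ ^ j : ℤ_[2]ˣ) : ℤ_[2]) :=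
    Units.continuous_val.comp ((kap_cont h).zpow j)
  exact h1.smul h

theorem tate_apply (ρ : Rep) (j : ℤ) (σ : GQ) :
    tate ρ j σ = ((kap ρ σ ^ j : ℤ_[2]ˣ) : ℤ_[2]) • ρ σ := rfl

theorem tate_det (ρ : Rep) (j : ℤ) (σ : GQ) :
    (tate ρ j σ).det = ((kap ρ σ ^ j : ℤ_[2]ˣ) : ℤ_[2]) ^ 2 * (ρ σ).det := by
  rw [tate_apply, Matrix.det_smul, Fintype.card_fin]

theorem quo_tate {ρ : Rep} {j : ℤ} {f : T2} {σ : GQ} {ψ : ℤ_[2]} (h : Quo ρ f σ ψ) :
    Quo (tate ρ j) f σ (((kap ρ σ ^ j : ℤ_[2]ˣ) : ℤ_[2]) * ψ) := by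
  refine ⟨h.1, fun t => ?_⟩
  rw [tate_apply, Matrix.smul_mulVec, dotProduct_smul, h.2 t, smul_eq_mul, mul_assoc]

theorem kap_one {ρ : Rep} {σ : GQ} (h : (ρ σ).det = 1) : kap ρ σ = 1 := Units.ext h

/-- **the even Tate twists are ordinary deformations of `E[4]`** -/
theorem tate_defm {b : Fin 3 → ℤ} {ρ : Rep} {w : Ideal ZB} {f : T2} (h : Defm b ρ w f)
    (hc : Cyc ρ) (hm : MultS b ρ) {j : ℤ} (hj : Even j) : Defm b (tate ρ j) w f := by
  have hu : ∀ σ, (4 : ℤ_[2]) ∣ ((kap ρ σ ^ j : ℤ_[2]ˣ) : ℤ_[2]) - 1 := fun σ => even_zpow _ hj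
  refine ⟨tate_cont h.cont j, ?_, ?_, ?_, ?_, ?_⟩
  · obtain ⟨π, h1, h2⟩ := h.congr
    refine ⟨π, fun σ t => ?_, h2⟩
    rw [← h1, tate_apply, Matrix.smul_mulVec, ← sub_eq_zero, ← map_sub, h2]
    intro i
    obtain ⟨k, hk⟩ := hu σ
    refine ⟨k * (ρ σ *ᵥ t) i, ?_⟩
    rw [Pi.sub_apply, Pi.smul_apply, smul_eq_mul]
    linear_combination (ρ σ *ᵥ t) i * hk
  · intro σ ζ hζ
    rw [h.cyc σ ζ hζ, tate_det, sq, mul_assoc, dvd_mul_iff (hu σ), dvd_mul_iff (hu σ)]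
  · intro Q hQ hd σ hσ
    have h1 := h.unr Q hQ hd σ hσ
    have h2 : kap ρ σ = 1 := kap_one (by rw [h1, Matrix.det_one])
    rw [tate_apply, h1, h2, one_zpow, Units.val_one, one_smul]
  · refine ⟨h.ord.max, h.ord.two, fun σ hσ => ?_⟩
    obtain ⟨ψ, h1, h2⟩ := h.ord.quo σ hσ
    refine ⟨_, quo_tate h1, fun m i hmi him y hy => ?_⟩
    rw [h2 m i hmi him y hy, dvd_mul_iff (hu σ)]
  · intro l hl hl2 hd hd2 Q hQ hlQ
    have h2Q : (2 : ZB) ∉ Q := by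
      intro h2
      apply hQ.ne_top
      rw [Ideal.eq_top_iff_one]
      have hodd : l % 2 = 1 := by
        rcases hl.eq_two_or_odd with h3 | h3
        · exact absurd h3 hl2
        · exact h3
      have h3 : (1 : ZB) = (l : ZB) - 2 * ((l / 2 : ℕ) : ZB) := by
        have h4 : ((l : ℕ) : ZB) = ((2 * (l / 2) + 1 : ℕ) : ZB) := by
          congr 1
          omega
        rw [h4]
        push_cast
        ring
      rw [h3]
      exact Q.sub_mem hlQ (Q.mul_mem_right _ h2)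
    obtain ⟨g, hg⟩ := hm l hl hl2 hd hd2 Q hQ hlQ
    obtain ⟨φ, hφD, hφ, -⟩ := Pool.Agent.Q24.HD.t_FRO l hl Q hQ hlQ
    obtain ⟨g', hg', -⟩ := h.mult l hl hl2 hd hd2 Q hQ hlQ
    have hdet : ∀ σ ∈ Dec Q, σ ∈ Ine Q → (ρ σ).det = 1 := fun σ hσ hI => by
      obtain ⟨ψ, -, h6⟩ := hg' σ hσ
      exact (h6 hI).2
    refine ⟨g, fun σ hσ => ?_, φ, hφD, ?_⟩
    · obtain ⟨ψ, h5, h6, h7⟩ := hg σ hσ
      refine ⟨_, quo_tate h5, fun hI => ?_⟩
      have h8 := hdet σ hσ hI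
      rw [tate_det, kap_one h8, one_zpow, Units.val_one, h7 hI, h8]
      norm_num
    · obtain ⟨ψ, h5, h6, h7⟩ := hg φ hφD
      refine ⟨_, quo_tate h5, fun hcon => ?_⟩
      have hdl := det_frob hc hQ h2Q hφ
      rw [tate_det] at hcon
      -- `κ ^ (j + 1) = ψ`
      have h9 : ((kap ρ φ ^ j : ℤ_[2]ˣ) : ℤ_[2]) * (ρ φ).det = ψ := by
        have h10 : ((kap ρ φ ^ j : ℤ_[2]ˣ) : ℤ_[2]) *
            (((kap ρ φ ^ j : ℤ_[2]ˣ) : ℤ_[2]) * (ρ φ).det - ψ) = 0 := by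
          linear_combination hcon
        rcases mul_eq_zero.1 h10 with h11 | h11
        · exact absurd h11 (Units.ne_zero _)
        · exact sub_eq_zero.1 h11
      have h12 : (kap ρ φ) ^ (2 * (j + 1)) = 1 := by
        have h13 : ((kap ρ φ ^ (j + 1) : ℤ_[2]ˣ) : ℤ_[2]) ^ 2 = 1 := by
          rw [zpow_add, zpow_one, Units.val_mul, kap_val, h9, h6]
        have h14 : (kap ρ φ ^ (j + 1)) ^ 2 = 1 := Units.ext (by
          rw [Units.val_pow_eq_pow_val, h13, Units.val_one])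
        rw [mul_comm, zpow_mul, zpow_ofNat]
        exact h14
      -- the determinant is the integer `l`
      have h15 : ∀ n : ℕ, n ≠ 0 → (kap ρ φ) ^ n ≠ 1 := by
        intro n hn h16
        have h17 := congrArg (fun u : ℤ_[2]ˣ => (u : ℤ_[2])) h16
        simp only [Units.val_pow_eq_pow_val, Units.val_one, kap_val, hdl] at h17
        have h18 : l ^ n = 1 := by exact_mod_cast h17
        exact (Nat.one_lt_pow hn hl.one_lt).ne' h18
      have h19 : 2 * (j + 1) ≠ 0 := by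
        obtain ⟨k, hk⟩ := hj
        omega
      have h20 : (kap ρ φ) ^ (2 * (j + 1)).natAbs = 1 := by
        rcases Int.natAbs_eq (2 * (j + 1)) with h21 | h21
        · rw [h21, zpow_natCast] at h12
          exact h12
        · rw [h21, zpow_neg, inv_eq_one, zpow_natCast] at h12
          exact h12
      exact h15 _ (Int.natAbs_ne_zero.2 h19) h20

end Pool.Agent.Q274.BD.Tate
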