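import Pool.Agent.Q274.BD.Stm
import Pool.Agent.Q274.BKC.Fin

/-!
# Project BD: the characters `ψ ^ a * conj ψ ^ b`

Adapted from `Pool.Agent.Q149.BKC.WTJ` (helper149).
-/

set_option autoImplicit false
set_option linter.unusedSectionVars false
set_option linter.unusedVariables false

namespace Pool.Agent.Q274.BD

open NumberField IsDedekindDomain
open Pool.Agent.Q274.BKC (OB Dec Ine val Unr Res Cl S_CLS S_INT S_QR S_PF S_H1 S_H2)
open Pool.Agent.W401.Cheb (GK IsFrob)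
open Pool.Agent.Q149.BKC

/-! ### units -/

theorem r4_t {t : ℤ_[2]} (ht3 : (4 : ℤ_[2]) ∣ t - 3) : r4 t = 3 := by
  have h1 := r4_eq_zero.2 ht3
  rw [map_sub, sub_eq_zero] at h1
  rw [h1, map_ofNat]

theorem r4_add {t : ℤ_[2]} (ht3 : (4 : ℤ_[2]) ∣ t - 3) (A B : ℤ) :
    r4 ((A : ℤ_[2]) + B * t) = ((A - B : ℤ) : ZMod 4) := by
  have h4 : (4 : ZMod 4) = 0 := by decide
  rw [map_add, map_mul, map_intCast, map_intCast, r4_t ht3]
  push_cast
  linear_combination (B : ZMod 4) * h4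

theorem r4_sub {t : ℤ_[2]} (ht3 : (4 : ℤ_[2]) ∣ t - 3) (A B : ℤ) :
    r4 ((A : ℤ_[2]) - B * t) = ((A + B : ℤ) : ZMod 4) := by
  have h4 : (4 : ZMod 4) = 0 := by decide
  rw [map_sub, map_mul, map_intCast, map_intCast, r4_t ht3]
  push_cast
  linear_combination (-(B : ZMod 4)) * h4

theorem isUnit_of_r4 {x : ℤ_[2]} (h : r4 x ^ 2 = 1) : IsUnit x := by
  rw [PadicInt.isUnit_iff]
  by_contra h0
  have h1 : ‖x‖ < 1 := lt_of_le_of_ne (PadicInt.norm_le_one _) h0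
  rw [PadicInt.norm_lt_one_iff_dvd] at h1
  obtain ⟨y, hy⟩ := h1
  have h2 : r4 x = 2 * r4 y := by
    rw [hy, map_mul]
    congr 1
    exact map_natCast r4 2
  rw [h2] at h
  have h4 : (4 : ZMod 4) = 0 := by decide
  have h5 : (2 * r4 y) ^ 2 = 0 := by linear_combination (r4 y) ^ 2 * h4
  rw [h5] at h
  exact absurd h (by decide)

theorem isUnit_add {t : ℤ_[2]} (ht3 : (4 : ℤ_[2]) ∣ t - 3) {A B : ℤ} (hodd : Odd (A + B)) :
    IsUnit ((A : ℤ_[2]) + B * t) := by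
  apply isUnit_of_r4
  rw [r4_add ht3]
  apply odd_sq4
  obtain ⟨k, hk⟩ := hodd
  exact ⟨k - B, by omega⟩

theorem isUnit_sub {t : ℤ_[2]} (ht3 : (4 : ℤ_[2]) ∣ t - 3) {A B : ℤ} (hodd : Odd (A + B)) :
    IsUnit ((A : ℤ_[2]) - B * t) := by
  apply isUnit_of_r4
  rw [r4_sub ht3]
  exact odd_sq4 hodd

/-- the inclusion of the units -/
noncomputable def iota : ℤ_[2]ˣ →* ℚ_[2]ˣ := Units.map (PadicInt.Coe.ringHom (p := 2)).toMonoidHom

theorem iota_val (u : ℤ_[2]ˣ) : ((iota u : ℚ_[2]ˣ) : ℚ_[2]) = ((u : ℤ_[2]) : ℚ_[2]) := rfl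

theorem coe_zpow (u : ℤ_[2]ˣ) (a : ℤ) :
    (((u ^ a : ℤ_[2]ˣ) : ℤ_[2]) : ℚ_[2]) = ((u : ℤ_[2]) : ℚ_[2]) ^ a := by
  rw [← iota_val, map_zpow, Units.val_zpow_eq_zpow_val, iota_val]

section
variable {K : Type} [Field K]

/-- the equation in the units of `ℤ_2` -/
theorem val_eq {χ : GK K →* ℤ_[2]ˣ} {σ : GK K} {n : ℕ} {J : ℤ} {u w : ℤ_[2]ˣ} {a b : ℤ}
    (h : val χ σ ^ n = (J : ℚ_[2]) * ((u : ℤ_[2]) : ℚ_[2]) ^ a * ((w : ℤ_[2]) : ℚ_[2]) ^ b) :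
    ((χ σ : ℤ_[2])) ^ n = (J : ℤ_[2]) * ((u ^ a : ℤ_[2]ˣ) : ℤ_[2]) * ((w ^ b : ℤ_[2]ˣ) : ℤ_[2]) := by
  rw [← coe_zpow, ← coe_zpow] at h
  have h1 : (((χ σ : ℤ_[2]) ^ n : ℤ_[2]) : ℚ_[2]) =
      (((J : ℤ_[2]) * ((u ^ a : ℤ_[2]ˣ) : ℤ_[2]) * ((w ^ b : ℤ_[2]ˣ) : ℤ_[2]) : ℤ_[2]) : ℚ_[2]) := by
    rw [PadicInt.coe_pow, PadicInt.coe_mul, PadicInt.coe_mul, PadicInt.coe_intCast]
    exact h
  exact Subtype.coe_injective h1

end

theorem r4_zpow (u : ℤ_[2]ˣ) (a : ℤ) :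
    r4 ((u ^ a : ℤ_[2]ˣ) : ℤ_[2]) = if Even a then 1 else r4 (u : ℤ_[2]) := by
  have h1 : ∀ w : (ZMod 4)ˣ, w ^ 2 = 1 := by decide
  have h2 : r4 ((u ^ a : ℤ_[2]ˣ) : ℤ_[2]) = (((Units.map r4.toMonoidHom u) ^ a : (ZMod 4)ˣ) : ZMod 4) := by
    rw [← map_zpow]
    rfl
  have h3 : r4 (u : ℤ_[2]) = ((Units.map r4.toMonoidHom u : (ZMod 4)ˣ) : ZMod 4) := rfl
  rw [h2, h3]
  split_ifs with h
  · obtain ⟨k, rfl⟩ := h
    rw [← two_mul, zpow_mul, zpow_ofNat, h1, one_zpow, Units.val_one]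
  · rw [Int.not_even_iff_odd] at h
    obtain ⟨k, rfl⟩ := h
    rw [zpow_add, zpow_mul, zpow_ofNat, h1, one_zpow, one_mul, zpow_one]


/-- the value of the character modulo four -/
theorem chi_modO {K : Type} [Field K] {q D : ℕ} {ε a b : ℤ} {t : ℤ_[2]} {χ : GK K →* ℤ_[2]ˣ} {σ : GK K}
    (hq8 : q % 8 = 7) (ht3 : (4 : ℤ_[2]) ∣ t - 3)
    {A B : ℤ} (hodd : Odd (A + B)) {n : ℕ} (hn : Odd n) (hab : Odd (a + b))
    (hε : ε = if Even b then 1 else -1)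
    (h : val χ σ ^ n =
      ((jacobiSym A q * jacobiSym (ε * D) (A ^ 2 + q * B ^ 2).natAbs : ℤ) : ℚ_[2]) *
        ((A : ℚ_[2]) + B * (t : ℚ_[2])) ^ a * ((A : ℚ_[2]) - B * (t : ℚ_[2])) ^ b) {e : ℤ}
    (he : (4 : ℤ_[2]) ∣ (e : ℤ_[2]) -
      ((jacobiSym A q * jacobiSym D (A ^ 2 + q * B ^ 2).natAbs : ℤ) : ℤ_[2]) *
        ((A : ℤ_[2]) + B * t)) : r4 (χ σ : ℤ_[2]) = (e : ZMod 4) := by
  have h4 : (4 : ZMod 4) = 0 := by decide
  have hqz : (q : ZMod 4) = 3 := by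
    have h1 : ((q : ℕ) : ZMod 4) = ((q % 4 : ℕ) : ZMod 4) := by simp
    rw [h1, show q % 4 = 3 by omega]
    rfl
  set N : ℕ := (A ^ 2 + q * B ^ 2).natAbs with hN
  have hN0 : (N : ℤ) = A ^ 2 + q * B ^ 2 := by
    rw [hN, Int.natCast_natAbs, abs_of_nonneg (by positivity)]
  have hNodd : Odd N := by
    rw [hN, Int.natAbs_odd]
    obtain ⟨k, hk⟩ := hodd
    obtain ⟨m, hm⟩ : ∃ m : ℕ, q = 8 * m + 7 := ⟨q / 8, by omega⟩
    have h1 : A = 2 * k + 1 - B := by omega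
    refine ⟨2 * k ^ 2 + 2 * k - (2 * k + 1) * B + 4 * B ^ 2 + 4 * m * B ^ 2, ?_⟩
    rw [h1, hm]
    push_cast
    ring
  have hNz : ((N : ℕ) : ZMod 4) = ((A + B : ℤ) : ZMod 4) * ((A - B : ℤ) : ZMod 4) := by
    have h1 : ((N : ℕ) : ZMod 4) = ((A ^ 2 + q * B ^ 2 : ℤ) : ZMod 4) := by
      rw [← hN0, Int.cast_natCast]
    rw [h1]
    push_cast
    rw [hqz]
    linear_combination (B : ZMod 4) ^ 2 * h4
  obtain ⟨u, hu⟩ := isUnit_add ht3 hodd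
  obtain ⟨w, hw⟩ := isUnit_sub ht3 hodd
  have hu' : ((A : ℚ_[2]) + B * (t : ℚ_[2])) = ((u : ℤ_[2]) : ℚ_[2]) := by
    rw [hu]
    push_cast
    rfl
  have hw' : ((A : ℚ_[2]) - B * (t : ℚ_[2])) = ((w : ℤ_[2]) : ℚ_[2]) := by
    rw [hw]
    push_cast
    rfl
  rw [hu', hw'] at h
  have h1 := congrArg r4 (val_eq h)
  rw [map_pow, map_mul, map_mul, map_intCast, r4_zpow, r4_zpow,
    zmod4_pow (r4_sq (χ σ).isUnit) hn, hu, hw, r4_add ht3, r4_sub ht3] at h1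
  have h2 := r4_eq_zero.2 he
  rw [map_sub, map_mul, map_intCast, map_intCast, r4_add ht3, sub_eq_zero] at h2
  rw [h2, h1]
  have hb2 : ((A + B : ℤ) : ZMod 4) ^ 2 = 1 := odd_sq4 hodd
  by_cases hbe : Even b
  · have hao : ¬ Even a := by
      intro ha
      exact (Int.not_even_iff_odd.2 hab) (ha.add hbe)
    rw [if_pos hbe] at hε
    rw [if_pos hbe, if_neg hao, hε, one_mul, mul_one]
  · have hae : Even a := by
      rw [Int.not_even_iff_odd] at hbe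
      have := hab.sub_odd hbe
      rwa [add_sub_cancel_right] at this
    rw [if_neg hbe] at hε
    have hj : jacobiSym (-1 * D) N = jacobiSym (-1) N * jacobiSym D N := jacobiSym.mul_left _ _ _
    rw [if_neg hbe, if_pos hae, hε, hj]
    push_cast at hNz hb2 ⊢
    rw [jac_neg hNodd, hNz]
    linear_combination (jacobiSym A q : ZMod 4) * (jacobiSym D N : ZMod 4) * (A - B : ZMod 4) * hb2


section
variable {K : Type} [Field K] [NumberField K]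

theorem unr_aux {χ : GK K →* ℤ_[2]ˣ} {F σ : GK K} {n : ℕ} (hn : Odd n)
    (h : val χ F ^ n = val χ (F * σ) ^ n) : χ σ = 1 := by
  have h7 : (χ F) ^ n = (χ (F * σ)) ^ n := by
    apply Units.ext
    rw [Units.val_pow_eq_pow_val, Units.val_pow_eq_pow_val]
    apply Subtype.coe_injective
    change (((χ F : ℤ_[2]) ^ n : ℤ_[2]) : ℚ_[2]) = (((χ (F * σ) : ℤ_[2]) ^ n : ℤ_[2]) : ℚ_[2])
    rw [PadicInt.coe_pow, PadicInt.coe_pow]
    exact h
  rw [map_mul, mul_pow] at h7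
  exact tors hn (mul_eq_left.1 h7.symm)

theorem res_frobO (hCLS : S_CLS) (hINT : S_INT) (hQR : S_QR) (hPF : S_PF) (hH1 : S_H1)
    (hH2 : S_H2) {q D : ℕ} {ε a b : ℤ} {s : K} {t : ℤ_[2]} {χ : GK K →* ℤ_[2]ˣ} (hq : q.Prime)
    (hq8 : q % 8 = 7) (hD : Cl q D) (hs : s ^ 2 = -(q : K)) (hK : Module.finrank ℚ K = 2)
    (ht : t ^ 2 = -(q : ℤ_[2])) (ht3 : (4 : ℤ_[2]) ∣ t - 3) (hab : Odd (a + b))
    (hε : ε = if Even b then 1 else -1) (hw : IsOdd q D ε a b s t χ)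
    {v : HeightOneSpectrum (𝓞 K)} (hvD : ((2 * q * D : ℕ) : 𝓞 K) ∉ v.asIdeal) {σ : GK K}
    (hσ : IsFrob v σ) {y : AlgebraicClosure K}
    (hy : y ^ 2 = algebraMap K (AlgebraicClosure K) (D * s)) :
    σ y = y ↔ ‖val χ σ - 1‖ ≤ 1 / 4 := by
  have h2v : (2 : 𝓞 K) ∉ v.asIdeal := by
    have h1 := not_mem_of_dvd (m := 2) (Dvd.intro (q * D) (by ring)) hvD
    exact_mod_cast h1
  have hqv : (q : 𝓞 K) ∉ v.asIdeal := not_mem_of_dvd (Dvd.intro (2 * D) (by ring)) hvD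
  have hDv : (D : 𝓞 K) ∉ v.asIdeal := not_mem_of_dvd (Dvd.intro (2 * q) (by ring)) hvD
  obtain ⟨n, A, B, β, hn, hβ0, hβ, hAB⟩ := place hCLS hINT hq hq8 hs hK v h2v
  have hodd := odd_add hq8 hs h2v hβ hAB
  have hsI : IsIntegral ℤ s := by
    apply IsIntegral.of_pow (n := 2) two_pos
    rw [hs]
    have h1 : IsIntegral ℤ (algebraMap ℤ K (-(q : ℤ))) := isIntegral_algebraMap
    simpa using h1
  let S : 𝓞 K := ⟨s, hsI⟩
  have hS : (S : K) = s := rfl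
  have hDS : (D : 𝓞 K) * S ∉ v.asIdeal := by
    intro h
    rcases v.isPrime.mem_or_mem h with h1 | h1
    · exact hDv h1
    · apply hqv
      have h3 : (q : 𝓞 K) = -(S * S) := by
        apply RingOfIntegers.ext
        change algebraMap (𝓞 K) K (q : 𝓞 K) = algebraMap (𝓞 K) K (-(S * S))
        rw [map_natCast, map_neg, map_mul]
        change (q : K) = -(s * s)
        linear_combination hs
      rw [h3]
      exact neg_mem (v.asIdeal.mul_mem_left _ h1)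
  obtain ⟨hNodd, e, he, hev⟩ := odd_norm h2v _ hDS
  have hqr := hQR hPF hH1 hH2 K q D s t hq hq8 hD hs hK ht ht3 v n A B β S e hvD hn hβ hAB hS he hev
  have hwt := hw v σ n A B β hvD hσ hn hβ hAB
  have hr := chi_modO hq8 ht3 hodd hn hab hε hwt hqr
  obtain ⟨Q, hQ, hQv, hF⟩ := hσ
  -- the right side
  have hR : ‖val χ σ - 1‖ ≤ 1 / 4 ↔ e = 1 := by
    have h1 : val χ σ - 1 = (((χ σ : ℤ_[2]) - 1 : ℤ_[2]) : ℚ_[2]) := by
      rw [PadicInt.coe_sub, PadicInt.coe_one]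
      rfl
    rw [h1, ← PadicInt.norm_def, r4_norm, map_sub, map_one, hr, sub_eq_zero]
    constructor
    · intro h3
      rcases he with he | he
      · exact he
      · exfalso
        rw [he] at h3
        revert h3
        decide
    · intro h3
      rw [h3]
      rfl
  rw [hR]
  -- the left side
  have hyI : IsIntegral ℤ y := by
    apply IsIntegral.of_pow (n := 2) two_pos
    rw [hy]
    have h1 : (algebraMap K (AlgebraicClosure K)) (D * s) =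
        algebraMap K (AlgebraicClosure K) (((D : 𝓞 K) * S : 𝓞 K) : K) := by
      congr 1
    rw [h1]
    exact ((D : 𝓞 K) * S).2.algebraMap
  let Y : OB K := ⟨y, hyI⟩
  have hY2 : Y ^ 2 = algebraMap (𝓞 K) (OB K) ((D : 𝓞 K) * S) := by
    apply RingOfIntegers.ext
    change (algebraMap (OB K) (AlgebraicClosure K)) (Y ^ 2) = _
    rw [map_pow]
    change y ^ 2 = _
    rw [hy]
    change algebraMap K (AlgebraicClosure K) (D * s) =
      algebraMap K (AlgebraicClosure K) (algebraMap (𝓞 K) K ((D : 𝓞 K) * S))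
    rw [map_mul (algebraMap (𝓞 K) K), map_natCast]
    rfl
  have hYQ : Y ∉ Q := by
    intro h
    apply hDS
    rw [← hQv, Ideal.mem_comap, ← hY2]
    exact Q.pow_mem_of_mem h 2 two_pos
  have h2Q : (2 : OB K) ∉ Q := by
    intro h
    apply h2v
    rw [← hQv, Ideal.mem_comap, map_ofNat]
    exact h
  have hYN : Y ^ Ideal.absNorm v.asIdeal = Y * algebraMap (𝓞 K) (OB K)
      (((D : 𝓞 K) * S) ^ ((Ideal.absNorm v.asIdeal - 1) / 2)) := by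
    obtain ⟨k, hk⟩ := hNodd
    rw [hk, show (2 * k + 1 - 1) / 2 = k by omega, map_pow, ← hY2, ← pow_mul, pow_succ]
    ring
  have hcQ : algebraMap (𝓞 K) (OB K)
      (((D : 𝓞 K) * S) ^ ((Ideal.absNorm v.asIdeal - 1) / 2)) - (e : OB K) ∈ Q := by
    have h1 : ((D : 𝓞 K) * S) ^ ((Ideal.absNorm v.asIdeal - 1) / 2) - (e : 𝓞 K) ∈
        Q.comap (algebraMap (𝓞 K) (OB K)) := by
      rw [hQv]
      exact hev
    rw [Ideal.mem_comap, map_sub, map_intCast] at h1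
    exact h1
  have hkey : σ • Y - e * Y ∈ Q := by
    have h1 := Q.add_mem (hF Y) (Q.mul_mem_left Y hcQ)
    rw [hYN] at h1
    have h3 : σ • Y - e * Y = σ • Y - Y * algebraMap (𝓞 K) (OB K)
      (((D : 𝓞 K) * S) ^ ((Ideal.absNorm v.asIdeal - 1) / 2)) + Y * (algebraMap (𝓞 K) (OB K)
      (((D : 𝓞 K) * S) ^ ((Ideal.absNorm v.asIdeal - 1) / 2)) - (e : OB K)) := by ring
    rw [h3]
    exact h1
  have hsig : (σ y) ^ 2 = y ^ 2 := by
    rw [← map_pow, hy]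
    exact σ.commutes _
  constructor
  · intro h
    have h1 : σ • Y = Y := RingOfIntegers.ext h
    rw [h1] at hkey
    rcases he with he | he
    · exact he
    · exfalso
      rw [he] at hkey
      have h3 : Y - ((-1 : ℤ) : OB K) * Y = 2 * Y := by push_cast; ring
      rw [h3] at hkey
      rcases hQ.isPrime.mem_or_mem hkey with h4 | h4
      · exact h2Q h4
      · exact hYQ h4
  · intro h
    rcases sq_eq_sq_iff_eq_or_eq_neg.1 hsig with h1 | h1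
    · exact h1
    · exfalso
      have h3 : σ • Y = -Y := RingOfIntegers.ext h1
      rw [h3, h] at hkey
      have h4 : -Y - ((1 : ℤ) : OB K) * Y = -(2 * Y) := by push_cast; ring
      rw [h4, neg_mem_iff] at hkey
      rcases hQ.isPrime.mem_or_mem hkey with h4 | h4
      · exact h2Q h4
      · exact hYQ h4



theorem unrO (hCLS : S_CLS) (hINT : S_INT) {q D : ℕ} {ε a b : ℤ} {s : K} {t : ℤ_[2]}
    {χ : GK K →* ℤ_[2]ˣ} (hq : q.Prime) (hq8 : q % 8 = 7)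
    (hs : s ^ 2 = -(q : K)) (hK : Module.finrank ℚ K = 2) (ht : t ^ 2 = -(q : ℤ_[2]))
    (hw : IsOdd q D ε a b s t χ) : Unr q D χ := by
  intro Q hQ hQD σ hσ
  have hmax : (Q.comap (algebraMap (𝓞 K) (OB K))).IsMaximal :=
    Ideal.isMaximal_comap_of_isIntegral_of_isMaximal (R := 𝓞 K) (S := OB K) Q
  let v : HeightOneSpectrum (𝓞 K) := ⟨Q.comap (algebraMap (𝓞 K) (OB K)), hmax.isPrime,
    Ring.ne_bot_of_isMaximal_of_not_isField hmax (RingOfIntegers.not_isField K)⟩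
  have hv : Q.comap (algebraMap (𝓞 K) (OB K)) = v.asIdeal := rfl
  have hvD : ((2 * q * D : ℕ) : 𝓞 K) ∉ v.asIdeal := by
    intro h
    apply hQD
    have h1 : algebraMap (𝓞 K) (OB K) ((2 * q * D : ℕ) : 𝓞 K) ∈ Q := h
    rwa [map_natCast] at h1
  have h2v : (2 : 𝓞 K) ∉ v.asIdeal := by
    have h1 := not_mem_of_dvd (m := 2) (Dvd.intro (q * D) (by ring)) hvD
    exact_mod_cast h1
  obtain ⟨n, A, B, β, hn, hβ0, hβ, hAB⟩ := place hCLS hINT hq hq8 hs hK v h2v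
  obtain ⟨F, hF⟩ := frob_at v Q hQ hv
  have h3 := hw v F n A B β hvD ⟨Q, hQ, hv, hF⟩ hn hβ hAB
  have h4 := hw v (F * σ) n A B β hvD ⟨Q, hQ, hv, frob_inert hQ hF hσ⟩ hn hβ hAB
  exact unr_aux hn (h3.trans h4.symm)

end

theorem t_WTE : S_WTE := by
  intro K _ _ q ε a b s t χ hq hq8 hs hK ht ht3 hχ hw Q hQ h2Q σ hσ
  have hmax : (Q.comap (algebraMap (𝓞 K) (OB K))).IsMaximal :=
    Ideal.isMaximal_comap_of_isIntegral_of_isMaximal (R := 𝓞 K) (S := OB K) Q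
  let v : HeightOneSpectrum (𝓞 K) := ⟨Q.comap (algebraMap (𝓞 K) (OB K)), hmax.isPrime,
    Ring.ne_bot_of_isMaximal_of_not_isField hmax (RingOfIntegers.not_isField K)⟩
  have hv : Q.comap (algebraMap (𝓞 K) (OB K)) = v.asIdeal := rfl
  have h2v : (2 : 𝓞 K) ∉ v.asIdeal := by
    intro h
    apply h2Q
    have h1 : algebraMap (𝓞 K) (OB K) (2 : 𝓞 K) ∈ Q := h
    rwa [map_ofNat] at h1
  obtain ⟨n, A, B, β, hn, hβ0, hβ, hAB⟩ :=
    place Pool.Agent.Q16.BKC.t_CLS Pool.Agent.Q26.BKC.t_INT hq hq8 hs hK v h2v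
  obtain ⟨F, hF⟩ := frob_at v Q hQ hv
  have h3 := hw v F n A B β h2v ⟨Q, hQ, hv, hF⟩ hn hβ hAB
  have h4 := hw v (F * σ) n A B β h2v ⟨Q, hQ, hv, frob_inert hQ hF hσ⟩ hn hβ hAB
  exact unr_aux hn (h3.trans h4.symm)

theorem t_WTO : S_WTO := by
  intro K _ _ q D ε a b s t χ hq hq8 hD hs hK ht ht3 hχ hab hε hw
  refine ⟨unrO Pool.Agent.Q16.BKC.t_CLS Pool.Agent.Q26.BKC.t_INT hq hq8 hs hK ht hw,
    fun y hy σ => ?_⟩
  have hm : 2 * q * D ≠ 0 :=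
    mul_ne_zero (mul_ne_zero two_ne_zero hq.ne_zero) hD.sqf.ne_zero
  have hd := Pool.Agent.Q15.GR.frob_dense (K := K) _ (fin_bad (K := K) hm)
  have hyI : IsIntegral K y := Algebra.IsIntegral.isIntegral y
  have hsub : {σ : GK K | ∃ v ∉ {v : HeightOneSpectrum (𝓞 K) |
      ((2 * q * D : ℕ) : 𝓞 K) ∈ v.asIdeal}, IsFrob v σ} ⊆
      {σ : GK K | σ y = y ↔ ‖val χ σ - 1‖ ≤ 1 / 4} := by
    rintro τ ⟨v, hv, hτ⟩
    exact res_frobO Pool.Agent.Q16.BKC.t_CLS Pool.Agent.Q26.BKC.t_INT Pool.Agent.Q26.BKC.t_QR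
      Pool.Agent.Q16.BKC.t_PF Pool.Agent.Q26.BKC.t_H1 Pool.Agent.Q38.BKC.t_H2 hq hq8 hD hs hK ht
      ht3 hab hε hw hv hτ hy
  exact (res_closed hχ y hyI).closure_subset_iff.2 hsub (hd σ)

end Pool.Agent.Q274.BD
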